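import Pool.Agent.Run7.h71.CD.Stm

/-!
Piece LVL of helper71's project CD (smooth converse of Desargues' involution theorem).
Author: helper559.
-/

set_option autoImplicit false

open Set Filter Topology
open scoped ContDiff
open Pool.Agent.Run7.h71.CD

namespace Run7.h559.CD

theorem exists_fun (φ : ℝ × ℝ →L[ℝ] ℝ) (hφ : φ ≠ 0) :
    ∃ l : ℝ × ℝ →L[ℝ] ℝ, Function.Injective (φ.prod l) := by
  have hdec : ∀ v : ℝ × ℝ, φ v = v.1 * φ (1, 0) + v.2 * φ (0, 1) := by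
    intro v
    have : v = v.1 • ((1 : ℝ), (0 : ℝ)) + v.2 • ((0 : ℝ), (1 : ℝ)) := by
      ext <;> simp
    conv_lhs => rw [this]
    rw [map_add, map_smul, map_smul, smul_eq_mul, smul_eq_mul]
  by_cases h : φ (0, 1) = 0
  · have h1 : φ (1, 0) ≠ 0 := by
      intro h2
      apply hφ
      ext
      · simpa using h2
      · simpa using h
    refine ⟨ContinuousLinearMap.snd ℝ ℝ ℝ, ?_⟩
    rw [injective_iff_map_eq_zero]
    intro v hv
    have hv1 : φ v = 0 := congrArg Prod.fst hv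
    have hv2 : v.2 = 0 := congrArg Prod.snd hv
    rw [hdec, hv2, zero_mul, add_zero] at hv1
    have hv3 : v.1 = 0 := (mul_eq_zero.1 hv1).resolve_right h1
    exact Prod.ext hv3 hv2
  · refine ⟨ContinuousLinearMap.fst ℝ ℝ ℝ, ?_⟩
    rw [injective_iff_map_eq_zero]
    intro v hv
    have hv1 : φ v = 0 := congrArg Prod.fst hv
    have hv2 : v.1 = 0 := congrArg Prod.snd hv
    rw [hdec, hv2, zero_mul, zero_add] at hv1
    have hv3 : v.2 = 0 := (mul_eq_zero.1 hv1).resolve_right h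
    exact Prod.ext hv2 hv3

theorem local_const (U : Set (ℝ × ℝ)) (F R : ℝ × ℝ → ℝ) (hU : IsOpen U)
    (hF : ContDiffOn ℝ ∞ F U) (hR : ContDiffOn ℝ ∞ R U) (hreg : ∀ x ∈ U, fderiv ℝ F x ≠ 0)
    (hprop : ∀ x ∈ U, ∀ v : ℝ × ℝ, fderiv ℝ F x v = 0 → fderiv ℝ R x v = 0)
    (x₀ : ℝ × ℝ) (hx₀ : x₀ ∈ U) : ∀ᶠ x in 𝓝 x₀, F x = F x₀ → R x = R x₀ := by
  have hFd : ∀ x ∈ U, HasFDerivAt F (fderiv ℝ F x) x := fun x hx =>
    ((hF.contDiffAt (hU.mem_nhds hx)).differentiableAt (by simp)).hasFDerivAt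
  have hRd : ∀ x ∈ U, HasFDerivAt R (fderiv ℝ R x) x := fun x hx =>
    ((hR.contDiffAt (hU.mem_nhds hx)).differentiableAt (by simp)).hasFDerivAt
  obtain ⟨l, hl⟩ := exists_fun (fderiv ℝ F x₀) (hreg x₀ hx₀)
  -- the chart
  set Φ : ℝ × ℝ → ℝ × ℝ := fun x => (F x, l x) with hΦ
  have hΦc : ContDiffAt ℝ 1 Φ x₀ :=
    ((hF.contDiffAt (hU.mem_nhds hx₀)).of_le (by simp)).prodMk l.contDiff.contDiffAt
  set e : (ℝ × ℝ) ≃L[ℝ] (ℝ × ℝ) :=
    (LinearEquiv.ofInjectiveEndo (((fderiv ℝ F x₀).prod l : ℝ × ℝ →L[ℝ] ℝ × ℝ) :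
      ℝ × ℝ →ₗ[ℝ] ℝ × ℝ) hl).toContinuousLinearEquiv with he
  have hee : (e : ℝ × ℝ →L[ℝ] ℝ × ℝ) = (fderiv ℝ F x₀).prod l := by
    ext <;> rfl
  have hΦd : HasFDerivAt Φ (e : ℝ × ℝ →L[ℝ] ℝ × ℝ) x₀ := by
    rw [hee]
    exact (hFd x₀ hx₀).prodMk l.hasFDerivAt
  set Ψ := hΦc.localInverse hΦd one_ne_zero with hΨ
  have hΨc : ContDiffAt ℝ 1 Ψ (Φ x₀) := hΦc.to_localInverse hΦd one_ne_zero
  have hΨ0 : Ψ (Φ x₀) = x₀ := hΦc.localInverse_apply_image hΦd one_ne_zero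
  have hst : HasStrictFDerivAt Φ (e : ℝ × ℝ →L[ℝ] ℝ × ℝ) x₀ :=
    hΦc.hasStrictFDerivAt' hΦd one_ne_zero
  have hleft : ∀ᶠ x in 𝓝 x₀, Ψ (Φ x) = x := hst.eventually_left_inverse
  have hright : ∀ᶠ p in 𝓝 (Φ x₀), Φ (Ψ p) = p := hst.eventually_right_inverse
  have hdiff : ∀ᶠ p in 𝓝 (Φ x₀), DifferentiableAt ℝ Ψ p := by
    filter_upwards [hΨc.eventually (by simp)] with p hp
    exact hp.differentiableAt one_ne_zero
  have hmem : ∀ᶠ p in 𝓝 (Φ x₀), Ψ p ∈ U := by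
    have := hΨc.continuousAt
    refine this.eventually ?_
    rw [hΨ0]
    exact hU.mem_nhds hx₀
  obtain ⟨r, hr, hball⟩ := Metric.eventually_nhds_iff_ball.1 (hright.and (hdiff.and hmem))
  have hΦcont : ContinuousAt Φ x₀ := hΦc.continuousAt
  filter_upwards [hleft, hΦcont.eventually (Metric.ball_mem_nhds (Φ x₀) hr)] with x hx1 hx2 hFx
  -- the segment
  set δ : ℝ := l x - l x₀ with hδ
  have hδr : |δ| < r := by
    have h1 : dist (Φ x) (Φ x₀) < r := hx2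
    have h2 : dist (l x) (l x₀) ≤ dist (Φ x) (Φ x₀) := by
      rw [Prod.dist_eq]
      exact le_max_right _ _
    rw [Real.dist_eq] at h2
    linarith
  set γ : ℝ → ℝ × ℝ := fun s => (F x₀, l x₀ + s * δ) with hγ
  have hγb : ∀ s ∈ Icc (0 : ℝ) 1, γ s ∈ Metric.ball (Φ x₀) r := by
    intro s hs
    rw [Metric.mem_ball, Prod.dist_eq]
    simp only [hγ, hΦ, dist_self, Real.dist_eq]
    have h1 : |l x₀ + s * δ - l x₀| = s * |δ| := by
      rw [add_sub_cancel_left, abs_mul, abs_of_nonneg hs.1]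
    rw [h1]
    have h2 : s * |δ| ≤ |δ| := mul_le_of_le_one_left (abs_nonneg _) hs.2
    exact max_lt hr (by linarith)
  have hγd : ∀ s, HasDerivAt γ ((0 : ℝ), δ) s := by
    intro s
    have h1 : HasDerivAt (fun s : ℝ => l x₀ + s * δ) δ s := by
      simpa using ((hasDerivAt_id s).mul_const δ).const_add (l x₀)
    exact (hasDerivAt_const s (F x₀)).prodMk h1
  have hder : ∀ s ∈ Icc (0 : ℝ) 1, HasDerivAt (fun s => R (Ψ (γ s))) 0 s := by
    intro s hs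
    obtain ⟨h1, h2, h3⟩ := hball (γ s) (hγb s hs)
    have h4 : HasFDerivAt Ψ (fderiv ℝ Ψ (γ s)) (γ s) := h2.hasFDerivAt
    have h5 : HasDerivAt (fun s => Ψ (γ s)) (fderiv ℝ Ψ (γ s) ((0 : ℝ), δ)) s :=
      h4.comp_hasDerivAt s (hγd s)
    have h6 : HasDerivAt (fun s => F (Ψ (γ s)))
        (fderiv ℝ F (Ψ (γ s)) (fderiv ℝ Ψ (γ s) ((0 : ℝ), δ))) s :=
      (hFd _ h3).comp_hasDerivAt s h5
    have h7 : HasDerivAt (fun s => R (Ψ (γ s)))
        (fderiv ℝ R (Ψ (γ s)) (fderiv ℝ Ψ (γ s) ((0 : ℝ), δ))) s :=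
      (hRd _ h3).comp_hasDerivAt s h5
    -- `F (Ψ (γ s))` is constant near `s`
    have h8 : (fun s => F (Ψ (γ s))) =ᶠ[𝓝 s] fun _ => F x₀ := by
      have hopen : ∀ᶠ s' in 𝓝 s, γ s' ∈ Metric.ball (Φ x₀) r :=
        (hγd s).continuousAt.eventually (Metric.isOpen_ball.mem_nhds (hγb s hs))
      filter_upwards [hopen] with s' hs'
      have := congrArg Prod.fst (hball (γ s') hs').1
      exact this
    have h9 : HasDerivAt (fun s => F (Ψ (γ s))) 0 s :=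
      (hasDerivAt_const s (F x₀)).congr_of_eventuallyEq h8
    have h10 := h6.unique h9
    have h11 := hprop _ h3 _ h10
    rw [h11] at h7
    exact h7
  have hconst := constant_of_has_deriv_right_zero (f := fun s => R (Ψ (γ s))) (a := 0) (b := 1)
    (fun s hs => (hder s hs).continuousAt.continuousWithinAt)
    (fun s hs => (hder s ⟨hs.1, hs.2.le⟩).hasDerivWithinAt) 1 ⟨zero_le_one, le_rfl⟩
  have e1 : γ 1 = Φ x := by
    simp only [hγ, hΦ, hδ, hFx, one_mul, add_sub_cancel]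
  have e0 : γ 0 = Φ x₀ := by
    simp only [hγ, hΦ, zero_mul, add_zero]
  simp only [e1, e0, hx1, hΨ0] at hconst
  exact hconst

theorem t_LVL : S_LVL := by
  intro U F R hU hF hR hreg hprop L hLU hL hFL x hx y hy
  have : PreconnectedSpace L := isPreconnected_iff_preconnectedSpace.1 hL
  have hloc : IsLocallyConstant (fun z : L => R z) := by
    rw [IsLocallyConstant.iff_eventually_eq]
    intro z
    have h1 := local_const U F R hU hF hR hreg hprop z (hLU z.2)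
    have h2 : ∀ᶠ w : L in 𝓝 z, F w = F z → R w = R z :=
      (continuous_subtype_val.tendsto z).eventually h1
    filter_upwards [h2] with w hw
    exact hw (hFL _ w.2 _ z.2)
  exact hloc.apply_eq_of_preconnectedSpace ⟨x, hx⟩ ⟨y, hy⟩

end Run7.h559.CD
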